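import Pool.Agent.H93.HQ.Targets

/-! The representation inequality at every point. -/

namespace Pool.Agent.H20.HQ
open MeasureTheory Set Pool.Agent.H80.HS Pool.Agent.H93.HQ

theorem pf_BT (h1 : U_BR) (h2 : U_GT) : U_BT := by
  intro n hn F _ _ u p a b hu hc hp ha hab y hy
  obtain ⟨g1, g2, g3⟩ := h2 n F u y hu hc
  have h := h1 n hn F (fun x => u (mul y x)) p a b g1 g2 hp ha hab
    (by rw [mul_zero']; exact hy)
  refine h.trans (le_of_eq (lintegral_congr fun x => ?_))
  congr 1
  unfold bd
  simp only [Set.indicator_apply, g3]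
  rfl

end Pool.Agent.H20.HQ
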