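import Pool.Agent.H93.HQ.Targets

/-! The gradient curves of the gauge are horizontal. -/

namespace Pool.Agent.H20.HQ
open MeasureTheory Set Pool.Agent.H80.HS Pool.Agent.H93.HQ

section
variable {n : ℕ} {F : Type} [NormedAddCommGroup F] [NormedSpace ℝ F]

/-- Cauchy-Schwarz for the horizontal gradient -/
theorem norm_hor_le (u : H n → F) (p : H n) (A B : V n) :
    ‖fderiv ℝ u p (A, B, 2 * (inner ℝ A p.2.1 - inner ℝ B p.1))‖ ≤
      Real.sqrt (‖A‖ ^ 2 + ‖B‖ ^ 2) * grad u p := by
  have hA : A = ∑ j, A j • EuclideanSpace.single j (1 : ℝ) := by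
    ext i
    simp [Finset.sum_apply, Pi.single_apply]
  have hB : B = ∑ j, B j • EuclideanSpace.single j (1 : ℝ) := by
    ext i
    simp [Finset.sum_apply, Pi.single_apply]
  have hv : (A, B, 2 * (inner ℝ A p.2.1 - inner ℝ B p.1)) =
      ∑ j, (A j • ((EuclideanSpace.single j (1 : ℝ), 0, 2 * p.2.1 j) : H n) +
        B j • ((0, EuclideanSpace.single j (1 : ℝ), -2 * p.1 j) : H n)) := by
    refine Prod.ext ?_ (Prod.ext ?_ ?_)
    · rw [Prod.fst_sum]
      simp only [Prod.fst_add, Prod.smul_fst, smul_zero, add_zero]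
      exact hA
    · rw [Prod.snd_sum, Prod.fst_sum]
      simp only [Prod.snd_add, Prod.smul_snd, Prod.fst_add, Prod.smul_fst, smul_zero, zero_add]
      exact hB
    · rw [Prod.snd_sum, Prod.snd_sum]
      simp only [Prod.snd_add, Prod.smul_snd, smul_eq_mul]
      rw [PiLp.inner_apply, PiLp.inner_apply, ← Finset.sum_sub_distrib, Finset.mul_sum]
      refine Finset.sum_congr rfl fun j _ => ?_
      simp only [RCLike.inner_apply, conj_trivial]
      ring
  rw [hv, map_sum]
  have h1 : ∀ j, ‖fderiv ℝ u p (A j • ((EuclideanSpace.single j (1 : ℝ), 0, 2 * p.2.1 j) : H n) +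
        B j • ((0, EuclideanSpace.single j (1 : ℝ), -2 * p.1 j) : H n))‖ ≤
      Real.sqrt (A j ^ 2 + B j ^ 2) * Real.sqrt (‖X u j p‖ ^ 2 + ‖Y u j p‖ ^ 2) := by
    intro j
    rw [map_add, map_smul, map_smul]
    change ‖A j • X u j p + B j • Y u j p‖ ≤ _
    rw [← Real.sqrt_mul (by positivity)]
    apply Real.le_sqrt_of_sq_le
    have h2 : ‖A j • X u j p + B j • Y u j p‖ ≤ |A j| * ‖X u j p‖ + |B j| * ‖Y u j p‖ := by
      refine (norm_add_le _ _).trans ?_
      rw [norm_smul, norm_smul, Real.norm_eq_abs, Real.norm_eq_abs]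
    have h3 : ‖A j • X u j p + B j • Y u j p‖ ^ 2 ≤
        (|A j| * ‖X u j p‖ + |B j| * ‖Y u j p‖) ^ 2 := by
      gcongr
    refine h3.trans ?_
    have h4 : |A j| ^ 2 = A j ^ 2 := sq_abs _
    have h5 : |B j| ^ 2 = B j ^ 2 := sq_abs _
    nlinarith [sq_nonneg (|A j| * ‖Y u j p‖ - |B j| * ‖X u j p‖)]
  have h2 : ∑ j, Real.sqrt (A j ^ 2 + B j ^ 2) * Real.sqrt (‖X u j p‖ ^ 2 + ‖Y u j p‖ ^ 2) ≤
      Real.sqrt (‖A‖ ^ 2 + ‖B‖ ^ 2) * grad u p := by
    unfold grad
    rw [← Real.sqrt_mul (by positivity)]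
    apply Real.le_sqrt_of_sq_le
    refine (Finset.sum_mul_sq_le_sq_mul_sq _ _ _).trans (le_of_eq ?_)
    congr 1
    · rw [EuclideanSpace.norm_sq_eq, EuclideanSpace.norm_sq_eq, ← Finset.sum_add_distrib]
      refine Finset.sum_congr rfl fun j _ => ?_
      rw [Real.sq_sqrt (by positivity), Real.norm_eq_abs, Real.norm_eq_abs, sq_abs, sq_abs]
    · refine Finset.sum_congr rfl fun j _ => ?_
      rw [Real.sq_sqrt (by positivity)]
  exact (norm_sum_le _ _).trans ((Finset.sum_le_sum fun j _ => h1 j).trans h2)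

end

theorem pf_CV : U_CV := by
  intro n F _ _ u x hu hx
  have hsq : 0 < sq x := by
    rw [← mz_sq]
    positivity
  obtain ⟨c, hc⟩ : ∃ c : ℝ, c = x.2.2 / sq x := ⟨_, rfl⟩
  rw [← hc]
  have hct : c * sq x = x.2.2 := by
    rw [hc]
    field_simp
  obtain ⟨Xs, hXs⟩ : ∃ Xs : ℝ → V n, Xs = fun s =>
    Real.cos (c * Real.log s) • x.1 + Real.sin (c * Real.log s) • x.2.1 := ⟨_, rfl⟩
  obtain ⟨Ys, hYs⟩ : ∃ Ys : ℝ → V n, Ys = fun s =>
    -Real.sin (c * Real.log s) • x.1 + Real.cos (c * Real.log s) • x.2.1 := ⟨_, rfl⟩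
  have hγ : ∀ s, dil s (rot (c * Real.log s) x) = ((s • Xs s, s • Ys s, s ^ 2 * x.2.2) : H n) := by
    intro s
    rw [hXs, hYs]
    rfl
  have hcX : ContinuousOn Xs (Ioi 0) := by
    rw [hXs]
    have : ContinuousOn Real.log (Ioi 0) :=
      Real.continuousOn_log.mono fun s hs => (ne_of_gt hs : s ≠ 0)
    have h1 : ContinuousOn (fun s => c * Real.log s) (Ioi 0) := continuousOn_const.mul this
    exact ((Real.continuous_cos.comp_continuousOn h1).smul continuousOn_const).add
      ((Real.continuous_sin.comp_continuousOn h1).smul continuousOn_const)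
  have hcY : ContinuousOn Ys (Ioi 0) := by
    rw [hYs]
    have : ContinuousOn Real.log (Ioi 0) :=
      Real.continuousOn_log.mono fun s hs => (ne_of_gt hs : s ≠ 0)
    have h1 : ContinuousOn (fun s => c * Real.log s) (Ioi 0) := continuousOn_const.mul this
    exact (((Real.continuous_sin.comp_continuousOn h1).neg).smul continuousOn_const).add
      ((Real.continuous_cos.comp_continuousOn h1).smul continuousOn_const)
  have hlog : ∀ s : ℝ, 0 < s → HasDerivAt (fun s => c * Real.log s) (c / s) s := by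
    intro s hs
    have := (Real.hasDerivAt_log hs.ne').const_mul c
    rwa [← div_eq_mul_inv] at this
  have hdX : ∀ s : ℝ, 0 < s → HasDerivAt (fun s => s • Xs s) (Xs s + c • Ys s) s := by
    intro s hs
    have h1 := (((hlog s hs).cos).smul_const x.1).add (((hlog s hs).sin).smul_const x.2.1)
    have h2 := (hasDerivAt_id s).smul h1
    have h3 : (fun s => s • Xs s) = (fun s => id s • ((fun s => Real.cos (c * Real.log s) • x.1) s +
        (fun s => Real.sin (c * Real.log s) • x.2.1) s)) := by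
      rw [hXs]
      rfl
    rw [h3]
    refine h2.congr_deriv ?_
    rw [hXs, hYs]
    obtain ⟨k, hk⟩ : ∃ k : ℝ, k = c / s := ⟨_, rfl⟩
    have hck : c = s * k := by
      rw [hk]
      field_simp
    rw [← hk]
    change s • ((-Real.sin (c * Real.log s) * k) • x.1 + (Real.cos (c * Real.log s) * k) • x.2.1) +
      (1 : ℝ) • (Real.cos (c * Real.log s) • x.1 + Real.sin (c * Real.log s) • x.2.1) =
      (Real.cos (c * Real.log s) • x.1 + Real.sin (c * Real.log s) • x.2.1) +
      c • (-Real.sin (c * Real.log s) • x.1 + Real.cos (c * Real.log s) • x.2.1)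
    generalize Real.sin (c * Real.log s) = S
    generalize Real.cos (c * Real.log s) = C
    rw [hck]
    module
  have hdY : ∀ s : ℝ, 0 < s → HasDerivAt (fun s => s • Ys s) (Ys s - c • Xs s) s := by
    intro s hs
    have h1 := (((hlog s hs).sin.neg).smul_const x.1).add (((hlog s hs).cos).smul_const x.2.1)
    have h2 := (hasDerivAt_id s).smul h1
    have h3 : (fun s => s • Ys s) =
        (fun s => id s • ((fun s => (-Real.sin (c * Real.log s)) • x.1) s +
        (fun s => Real.cos (c * Real.log s) • x.2.1) s)) := by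
      rw [hYs]
      rfl
    rw [h3]
    refine h2.congr_deriv ?_
    rw [hXs, hYs]
    obtain ⟨k, hk⟩ : ∃ k : ℝ, k = c / s := ⟨_, rfl⟩
    have hck : c = s * k := by
      rw [hk]
      field_simp
    rw [← hk]
    change s • ((-(Real.cos (c * Real.log s) * k)) • x.1 +
      (-Real.sin (c * Real.log s) * k) • x.2.1) +
      (1 : ℝ) • ((-Real.sin (c * Real.log s)) • x.1 + Real.cos (c * Real.log s) • x.2.1) =
      ((-Real.sin (c * Real.log s)) • x.1 + Real.cos (c * Real.log s) • x.2.1) -
      c • (Real.cos (c * Real.log s) • x.1 + Real.sin (c * Real.log s) • x.2.1)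
    generalize Real.sin (c * Real.log s) = S
    generalize Real.cos (c * Real.log s) = C
    rw [hck]
    module
  have hsum : ∀ s, ‖Xs s‖ ^ 2 + ‖Ys s‖ ^ 2 = sq x := by
    intro s
    rw [← sq_rot (c * Real.log s) x, hXs, hYs]
    rfl
  refine ⟨fun s => fderiv ℝ u (dil s (rot (c * Real.log s) x))
    ((Xs s + c • Ys s, Ys s - c • Xs s, 2 * s * x.2.2) : H n), ?_, fun s hs => ⟨?_, ?_⟩⟩
  · have hcγ : ContinuousOn (fun s => dil s (rot (c * Real.log s) x)) (Ioi 0) := by
      have : (fun s => dil s (rot (c * Real.log s) x)) =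
          fun s => ((s • Xs s, s • Ys s, s ^ 2 * x.2.2) : H n) := funext hγ
      rw [this]
      exact (continuousOn_id.smul hcX).prodMk ((continuousOn_id.smul hcY).prodMk (by fun_prop))
    refine ((hu.continuous_fderiv one_ne_zero).comp_continuousOn hcγ).clm_apply ?_
    exact (hcX.add (hcY.const_smul c)).prodMk ((hcY.sub (hcX.const_smul c)).prodMk (by fun_prop))
  · have h1 : HasDerivAt (fun s => dil s (rot (c * Real.log s) x))
        ((Xs s + c • Ys s, Ys s - c • Xs s, 2 * s * x.2.2) : H n) s := by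
      have : (fun s => dil s (rot (c * Real.log s) x)) =
          fun s => ((s • Xs s, s • Ys s, s ^ 2 * x.2.2) : H n) := funext hγ
      rw [this]
      refine (hdX s hs).prodMk ((hdY s hs).prodMk ?_)
      have h2 := ((hasDerivAt_pow 2 s)).mul_const x.2.2
      refine h2.congr_deriv ?_
      norm_num
    exact ((hu.differentiable one_ne_zero).differentiableAt.hasFDerivAt).comp_hasDerivAt s h1
  · have h1 : (2 : ℝ) * s * x.2.2 = 2 * (inner ℝ (Xs s + c • Ys s)
        (dil s (rot (c * Real.log s) x)).2.1 - inner ℝ (Ys s - c • Xs s)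
        (dil s (rot (c * Real.log s) x)).1) := by
      rw [hγ]
      simp only [inner_add_left, inner_sub_left, inner_smul_left, inner_smul_right,
        real_inner_self_eq_norm_sq, conj_trivial]
      rw [← hct, ← hsum s, real_inner_comm (Xs s) (Ys s)]
      ring
    simp only
    rw [h1]
    refine (norm_hor_le u _ _ _).trans (le_of_eq ?_)
    congr 1
    have h2 : ‖Xs s + c • Ys s‖ ^ 2 + ‖Ys s - c • Xs s‖ ^ 2 = (1 + c ^ 2) * sq x := by
      rw [← hsum s, @norm_add_sq_real, @norm_sub_sq_real]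
      simp only [norm_smul, inner_smul_right, mul_pow, Real.norm_eq_abs, sq_abs]
      rw [real_inner_comm (Xs s) (Ys s)]
      ring
    rw [h2]
    have h3 : (N x ^ 2 / mz x) ^ 2 = (1 + c ^ 2) * sq x := by
      rw [div_pow, mz_sq, ← pow_mul, N_pow_four', ← hct]
      field_simp
    rw [← h3, Real.sqrt_sq (div_nonneg (by positivity) hx.le)]

end Pool.Agent.H20.HQ
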