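import Pool.Agent.H93.HQ.Targets

/-! Almost every point has `z ≠ 0`. -/

namespace Pool.Agent.H20.HQ
open MeasureTheory Set Pool.Agent.H80.HS Pool.Agent.H93.HQ

theorem pf_MZ : U_MZ := by
  intro n hn
  have : Nonempty (Fin n) := ⟨⟨0, hn⟩⟩
  have h0 : volume (({0} : Set (V n)) ×ˢ (Set.univ : Set (V n × ℝ))) = 0 := by
    rw [Measure.volume_eq_prod, Measure.prod_prod, measure_singleton, zero_mul]
  rw [ae_iff]
  refine measure_mono_null ?_ h0
  intro x hx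
  have h1 : mz x = 0 := le_antisymm (not_lt.1 hx) (mz_nonneg x)
  have h2 : Pool.Agent.H93.HQ.sq x = 0 := by
    rw [← mz_sq, h1]
    norm_num
  unfold Pool.Agent.H93.HQ.sq at h2
  have h3 : ‖x.1‖ ^ 2 = 0 := by nlinarith [sq_nonneg ‖x.1‖, sq_nonneg ‖x.2.1‖]
  have h4 : x.1 = 0 := by
    rw [pow_eq_zero_iff two_ne_zero, norm_eq_zero] at h3
    exact h3
  exact ⟨h4, Set.mem_univ _⟩

end Pool.Agent.H20.HQ
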